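import Pool.Agent.helper86.NF.SpecC
import Pool.Agent.helper63.ED.PW
import Pool.Agent.helper59.DM.DV

/-!
# Project nf (MP_4467b5_nt), module LWK

The large values theorem of project lw: for the `k`-th power of a Dirichlet polynomial.
-/

set_option autoImplicit false

open Complex MeasureTheory

namespace Pool.Agent.NF

open Pool.Agent.helper84.DM Pool.Agent.helper78.ED Pool.Agent.DH Pool.Agent.ZD

theorem LWK_split (f : ℕ → ℂ) (M : ℕ) (m : ℕ) :
    ∑ n ∈ Finset.Ioc M (2 ^ m * M), f n =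
      ∑ j ∈ Finset.range m, ∑ n ∈ Finset.Ioc (2 ^ j * M) (2 * (2 ^ j * M)), f n := by
  induction m with
  | zero => simp
  | succ m ih =>
    have h1 : M ≤ 2 ^ m * M := Nat.le_mul_of_pos_left _ (by positivity)
    have h2 : 2 ^ m * M ≤ 2 ^ (m + 1) * M := Nat.mul_le_mul_right _ (Nat.pow_le_pow_right (by omega) (by omega))
    rw [Finset.sum_range_succ, ← ih, ← Finset.sum_Ioc_consecutive _ h1 h2]
    congr 2
    congr 1
    ring

theorem LWK_pig (k : ℕ) (hk : 1 ≤ k) (x : ℕ → ℝ) (y : ℝ) (h : y ≤ ∑ j ∈ Finset.range k, x j) :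
    ∃ j ∈ Finset.range k, y / k ≤ x j := by
  by_contra hcon
  push Not at hcon
  have hk0 : (0 : ℝ) < k := by exact_mod_cast hk
  have h1 : ∑ j ∈ Finset.range k, x j < ∑ _j ∈ Finset.range k, y / k :=
    Finset.sum_lt_sum_of_nonempty ⟨0, Finset.mem_range.2 (by omega)⟩ hcon
  rw [Finset.sum_const, Finset.card_range, nsmul_eq_mul, mul_div_cancel₀ _ hk0.ne'] at h1
  linarith

/-- Real number estimate for one dyadic block. -/
theorem LWK_real (T M Mj Q A V : ℝ) (k : ℕ) (hT : 1 ≤ T) (hM : 0 < M) (hMj : 0 < Mj)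
    (hMjM : Mj ≤ 2 ^ k * M) (hQ : 1 ≤ Q) (hA : 0 < A) (hV : 0 < V) :
    Mj ^ 2 / (V ^ k / (A ^ k * Q)) ^ 2 +
      (T ^ (1 / 2 : ℝ) * Mj ^ 3 + T ^ (6 / 7 : ℝ) * Mj ^ (18 / 7 : ℝ) + T * Mj ^ 2) /
        (V ^ k / (A ^ k * Q)) ^ 4 ≤
    (2 ^ k) ^ 3 * Q ^ 4 * (A ^ (2 * k) * M ^ 2 / V ^ (2 * k) +
      A ^ (4 * k) * (T ^ (1 / 2 : ℝ) * M ^ 3 + T ^ (6 / 7 : ℝ) * M ^ (18 / 7 : ℝ) + T * M ^ 2) /
        V ^ (4 * k)) := by
  set P : ℝ := 2 ^ k with hP
  have hP1 : 1 ≤ P := one_le_pow₀ (by norm_num)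
  have hP0 : 0 < P := by linarith
  have h2 : Mj ^ 2 ≤ P ^ 3 * M ^ 2 := by
    calc Mj ^ 2 ≤ (P * M) ^ 2 := pow_le_pow_left₀ hMj.le hMjM 2
      _ = P ^ 2 * M ^ 2 := by ring
      _ ≤ P ^ 3 * M ^ 2 := mul_le_mul_of_nonneg_right (pow_le_pow_right₀ hP1 (by norm_num))
          (by positivity)
  have h3 : Mj ^ 3 ≤ P ^ 3 * M ^ 3 := by
    calc Mj ^ 3 ≤ (P * M) ^ 3 := pow_le_pow_left₀ hMj.le hMjM 3
      _ = P ^ 3 * M ^ 3 := by ring
  have h4 : Mj ^ (18 / 7 : ℝ) ≤ P ^ 3 * M ^ (18 / 7 : ℝ) := by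
    calc Mj ^ (18 / 7 : ℝ) ≤ (P * M) ^ (18 / 7 : ℝ) :=
          Real.rpow_le_rpow hMj.le hMjM (by norm_num)
      _ = P ^ (18 / 7 : ℝ) * M ^ (18 / 7 : ℝ) := Real.mul_rpow hP0.le hM.le
      _ ≤ P ^ (3 : ℝ) * M ^ (18 / 7 : ℝ) := mul_le_mul_of_nonneg_right
          (Real.rpow_le_rpow_of_exponent_le hP1 (by norm_num)) (by positivity)
      _ = P ^ 3 * M ^ (18 / 7 : ℝ) := by
          congr 1
          exact_mod_cast Real.rpow_natCast P 3
  have hQ0 : 0 < Q := by linarith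
  have hQ24 : Q ^ 2 ≤ Q ^ 4 := pow_le_pow_right₀ hQ (by norm_num)
  have hT0 : 0 < T := by linarith
  set a := T ^ (1 / 2 : ℝ) with ha
  set b := T ^ (6 / 7 : ℝ) with hb
  have ha0 : 0 < a := by positivity
  have hb0 : 0 < b := by positivity
  set m := M ^ (18 / 7 : ℝ) with hm
  set mj := Mj ^ (18 / 7 : ℝ) with hmj
  have hm0 : 0 < m := by positivity
  have hmj0 : 0 < mj := by positivity
  have hS : a * Mj ^ 3 + b * mj + T * Mj ^ 2 ≤ P ^ 3 * (a * M ^ 3 + b * m + T * M ^ 2) := by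
    have e1 := mul_le_mul_of_nonneg_left h3 ha0.le
    have e2 := mul_le_mul_of_nonneg_left h4 hb0.le
    have e3 := mul_le_mul_of_nonneg_left h2 hT0.le
    nlinarith
  have e1 : Mj ^ 2 / (V ^ k / (A ^ k * Q)) ^ 2 = Mj ^ 2 * (Q ^ 2 * (A ^ (2 * k) / V ^ (2 * k))) := by
    have : V ^ (2 * k) = (V ^ k) ^ 2 := by rw [← pow_mul, mul_comm]
    have h' : A ^ (2 * k) = (A ^ k) ^ 2 := by rw [← pow_mul, mul_comm]
    rw [this, h']
    field_simp
  have e2 : ∀ S : ℝ, S / (V ^ k / (A ^ k * Q)) ^ 4 = S * (Q ^ 4 * (A ^ (4 * k) / V ^ (4 * k))) := by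
    intro S
    have : V ^ (4 * k) = (V ^ k) ^ 4 := by rw [← pow_mul, mul_comm]
    have h' : A ^ (4 * k) = (A ^ k) ^ 4 := by rw [← pow_mul, mul_comm]
    rw [this, h']
    field_simp
  rw [e1, e2]
  have hr2 : 0 ≤ A ^ (2 * k) / V ^ (2 * k) := by positivity
  have hr4 : 0 ≤ A ^ (4 * k) / V ^ (4 * k) := by positivity
  have f1 : Mj ^ 2 * (Q ^ 2 * (A ^ (2 * k) / V ^ (2 * k))) ≤
      (P ^ 3 * M ^ 2) * (Q ^ 4 * (A ^ (2 * k) / V ^ (2 * k))) :=
    mul_le_mul h2 (mul_le_mul_of_nonneg_right hQ24 hr2) (by positivity) (by positivity)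
  have f2 : (a * Mj ^ 3 + b * mj + T * Mj ^ 2) * (Q ^ 4 * (A ^ (4 * k) / V ^ (4 * k))) ≤
      (P ^ 3 * (a * M ^ 3 + b * m + T * M ^ 2)) * (Q ^ 4 * (A ^ (4 * k) / V ^ (4 * k))) :=
    mul_le_mul_of_nonneg_right hS (by positivity)
  refine (add_le_add f1 f2).trans (le_of_eq ?_)
  ring

theorem LWK (hLWF : LWF_stmt) : LWK_stmt := by
  intro ε k hε hk
  have hk0 : (0 : ℝ) < k := by exact_mod_cast hk
  set η : ℝ := ε / (8 * k) with hηd
  have hη : 0 < η := by positivity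
  obtain ⟨C₁, hC₁, hdiv⟩ := divisor_bound η hη
  obtain ⟨C₂, hC₂, hlw⟩ := hLWF (ε / 2) (by positivity)
  refine ⟨k * (C₂ * ((2 ^ k) ^ 3 * (k * (1 + C₁) ^ k) ^ 4)), by positivity, ?_⟩
  intro T hT W hW N a A V hN hNT hA hV ha hVW
  have hT0 : 0 < T := by linarith
  have hN0 : (1 : ℝ) ≤ N := by exact_mod_cast hN
  obtain ⟨b, hb, hpow⟩ := pow_poly N hN a A hA.le ha k hk
  set M : ℕ := N ^ k with hMd
  have hM1 : 1 ≤ M := Nat.one_le_pow _ _ hN
  have hMr : (M : ℝ) = (N : ℝ) ^ k := by rw [hMd]; push_cast; rfl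
  have h2M : (2 * N) ^ k = 2 ^ k * M := by rw [hMd, mul_pow]
  have h2Mr : ((2 ^ k * M : ℕ) : ℝ) ≤ T := by
    rw [← h2M]
    push_cast
    exact hNT
  set R : ℝ := (1 + C₁) ^ k * (T ^ η) ^ k with hR
  have hTη : 1 ≤ T ^ η := Real.one_le_rpow hT hη.le
  have hR1 : 1 ≤ R := by
    have h1 : 1 ≤ (1 + C₁) ^ k := one_le_pow₀ (by linarith)
    have h2 : 1 ≤ (T ^ η) ^ k := one_le_pow₀ hTη
    rw [hR]
    nlinarith
  have hR0 : 0 < R := by linarith
  set B : ℝ := A ^ k * R with hB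
  have hB0 : 0 < B := by positivity
  have hbB : ∀ n : ℕ, 1 ≤ n → (n : ℝ) ≤ T → ‖b n‖ ≤ B := by
    intro n hn hnT
    have hd1 : d n ≤ (1 + C₁) * T ^ η := by
      refine (hdiv n hn).trans ?_
      have h1 : (n : ℝ) ^ η ≤ T ^ η := Real.rpow_le_rpow (by positivity) hnT hη.le
      have h2 : 0 ≤ T ^ η := by positivity
      nlinarith [mul_le_mul_of_nonneg_left h1 hC₁.le]
    have hd0 : 0 ≤ d n := by
      unfold d
      positivity
    refine (hb n).trans ?_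
    have h3 := pow_le_pow_left₀ hd0 hd1 k
    rw [mul_pow (1 + C₁)] at h3
    rw [hB, hR]
    exact mul_le_mul_of_nonneg_left h3 (by positivity)
  set Q : ℝ := k * R with hQ
  have hk1 : (1 : ℝ) ≤ k := by exact_mod_cast hk
  have hQ1 : 1 ≤ Q := by
    rw [hQ]
    nlinarith
  -- the blocks
  classical
  set Wj : ℕ → Finset ℝ := fun j => W.filter fun t => V ^ k / k ≤
    ‖∑ n ∈ Finset.Ioc (2 ^ j * M) (2 * (2 ^ j * M)), b n * (n : ℂ) ^ (-((t : ℂ) * Complex.I))‖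
    with hWj
  have hcover : W ⊆ (Finset.range k).biUnion Wj := by
    intro t ht
    have h1 : V ^ k ≤ ‖DP N a t‖ ^ k := pow_le_pow_left₀ hV.le (hVW t ht) k
    have h2 : ‖DP N a t‖ ^ k = ‖∑ j ∈ Finset.range k, ∑ n ∈ Finset.Ioc (2 ^ j * M) (2 * (2 ^ j * M)),
        b n * (n : ℂ) ^ (-((t : ℂ) * Complex.I))‖ := by
      rw [← norm_pow, ← LWK_split, ← h2M]
      unfold DP
      rw [hpow ((t : ℂ) * I)]
    rw [h2] at h1
    obtain ⟨j, hj, hj2⟩ := LWK_pig k hk _ _ (h1.trans (norm_sum_le _ _))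
    exact Finset.mem_biUnion.2 ⟨j, hj, Finset.mem_filter.2 ⟨ht, hj2⟩⟩
  have hcard : (W.card : ℝ) ≤ ∑ j ∈ Finset.range k, ((Wj j).card : ℝ) := by
    have h1 := (Finset.card_le_card hcover).trans Finset.card_biUnion_le
    exact_mod_cast h1
  have hblock : ∀ j ∈ Finset.range k, ((Wj j).card : ℝ) ≤ C₂ * T ^ (ε / 2) *
      ((2 ^ k) ^ 3 * Q ^ 4 * (A ^ (2 * k) * ((N : ℝ) ^ k) ^ 2 / V ^ (2 * k) +
      A ^ (4 * k) * (T ^ (1 / 2 : ℝ) * ((N : ℝ) ^ k) ^ 3 +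
      T ^ (6 / 7 : ℝ) * ((N : ℝ) ^ k) ^ (18 / 7 : ℝ) + T * ((N : ℝ) ^ k) ^ 2) / V ^ (4 * k))) := by
    intro j hj
    have hjk := Finset.mem_range.1 hj
    have hMj1 : 1 ≤ 2 ^ j * M := Nat.mul_pos (by positivity) hM1
    have hMjle : 2 * (2 ^ j * M) ≤ 2 ^ k * M := by
      calc 2 * (2 ^ j * M) = 2 ^ (j + 1) * M := by ring
        _ ≤ 2 ^ k * M := Nat.mul_le_mul_right _ (Nat.pow_le_pow_right (by omega) (by omega))
    have hMjT : ((2 ^ j * M : ℕ) : ℝ) ≤ T := by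
      refine le_trans ?_ h2Mr
      have : 2 ^ j * M ≤ 2 ^ k * M := by omega
      exact_mod_cast this
    have h1 := hlw T T (2 ^ j * M) (fun n => b n / (B : ℂ)) (V ^ k / (k * B)) (Wj j) hT hMj1 hMjT
      (by positivity)
      (by
        intro n hn
        rw [Finset.mem_Ioc] at hn
        rw [norm_div, Complex.norm_real, Real.norm_of_nonneg hB0.le, div_le_one hB0]
        refine hbB n (by omega) (le_trans ?_ h2Mr)
        have : n ≤ 2 ^ k * M := by omega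
        exact_mod_cast this)
      (by
        intro t ht
        have := hW.1 t (Finset.mem_filter.1 ht).1
        exact ⟨this.1, by linarith [this.2]⟩)
      (by
        intro t ht s hs hts
        have := hW.2 t (Finset.mem_filter.1 ht).1 s (Finset.mem_filter.1 hs).1 hts
        rwa [Real.rpow_zero] at this)
      (by
        intro t ht
        have h2 := (Finset.mem_filter.1 ht).2
        have h3 : ∑ n ∈ Finset.Ioc (2 ^ j * M) (2 * (2 ^ j * M)), b n / (B : ℂ) *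
            (n : ℂ) ^ (-((t : ℂ) * Complex.I)) = (∑ n ∈ Finset.Ioc (2 ^ j * M) (2 * (2 ^ j * M)),
            b n * (n : ℂ) ^ (-((t : ℂ) * Complex.I))) / (B : ℂ) := by
          rw [Finset.sum_div]
          refine Finset.sum_congr rfl fun n _ => ?_
          ring
        rw [h3, norm_div, Complex.norm_real, Real.norm_of_nonneg hB0.le, ← div_div]
        exact div_le_div_of_nonneg_right h2 hB0.le)
    refine h1.trans ?_
    have h4 : V ^ k / (k * B) = V ^ k / (A ^ k * Q) := by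
      congr 1
      rw [hB, hQ]
      ring
    rw [h4]
    have h5 := LWK_real T ((N : ℝ) ^ k) ((2 ^ j * M : ℕ) : ℝ) Q A V k hT (by positivity)
      (by exact_mod_cast hMj1) (by
        rw [← hMr]
        have : 2 ^ j * M ≤ 2 ^ k * M := by omega
        exact_mod_cast this) hQ1 hA hV
    exact mul_le_mul_of_nonneg_left h5 (by positivity)
  refine hcard.trans ((Finset.sum_le_sum hblock).trans (le_of_eq ?_))
  rw [Finset.sum_const, Finset.card_range, nsmul_eq_mul]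
  have h6 : Q ^ 4 = (k * (1 + C₁) ^ k) ^ 4 * T ^ (ε / 2) := by
    have h7 : ((T ^ η) ^ k) ^ 4 = T ^ (ε / 2) := by
      rw [← pow_mul, ← Real.rpow_natCast (T ^ η) (k * 4), ← Real.rpow_mul hT0.le]
      congr 1
      rw [hηd]
      push_cast
      field_simp
      norm_num
    rw [hQ, hR, ← h7]
    ring
  have h8 : T ^ ε = T ^ (ε / 2) * T ^ (ε / 2) := by
    rw [← Real.rpow_add hT0]
    congr 1
    ring
  rw [h6, h8]
  ring

end Pool.Agent.NF
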